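import Pool.Agent.SGD.Stmts

/-!
# Squad SGD, row BN2
-/

set_option autoImplicit false

namespace Pool.Agent.SGD.H5

open Pool.Agent.SGE Pool.Agent.SGP Pool.Agent.SGY Pool.Agent.SGD

theorem tri_tail {V : Type} {R : V → V → V → Prop} {c : V} {l : List V} (h : Tri R (c :: l)) :
    Tri R l := by
  match l with
  | [] => trivial
  | [_] => trivial
  | _ :: _ :: _ => exact h.2

theorem tri_mid {V : Type} {R : V → V → V → Prop} {x z y : V} {B : List V} :
    ∀ A : List V, Tri R (A ++ x :: z :: y :: B) → R x z y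
  | [], h => h.1
  | _ :: A, h => tri_mid A (tri_tail h)

theorem fan_last {V : Type} {E : V → V → Prop} {F : V → V → V → Prop} {x w y : V}
    (h : Fan E F x w y) : E w y ∧ ∀ z, ¬ F w y z := by
  obtain ⟨l, _, h2, _, _, h5, h6⟩ := h
  exact ⟨(h5 y).2 (List.mem_of_getLast? h2), h6⟩

theorem fan_cons {V : Type} {R : V → V → V → Prop} {p x y : V} {Q : List V} (P : List V)
    (h : Tri R (p :: (P ++ x :: y :: Q))) : ∃ x', R x' x y := by
  rcases List.eq_nil_or_concat P with rfl | ⟨P', x', rfl⟩
  · exact ⟨p, tri_mid [] h⟩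
  · refine ⟨x', tri_mid (p :: P') (B := Q) ?_⟩
    have e : p :: P' ++ x' :: x :: y :: Q = p :: (P'.concat x' ++ x :: y :: Q) := by
      simp
    rw [e]
    exact h

theorem bn2 : Bn2Stmt := by
  intro V _ a b C E F h
  have hbd := h.bd
  refine ⟨?_, ?_⟩
  · rintro x y ⟨P, Q, hC⟩
    have e : b :: (C ++ [a]) = b :: (P ++ x :: y :: (Q ++ [a])) := by
      rw [hC]
      simp
    rw [e] at hbd
    obtain ⟨x', hx'⟩ := fan_cons P hbd
    exact fan_last hx'
  · have hls := h.ls
    rcases List.eq_nil_or_concat C with rfl | ⟨C', b', rfl⟩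
    · simp at hls
    · have hb : b' = b := by simpa using hls
      subst hb
      have e : b' :: (C'.concat b' ++ [a]) = b' :: (C' ++ b' :: a :: []) := by simp
      rw [e] at hbd
      obtain ⟨x', hx'⟩ := fan_cons C' hbd
      exact fan_last hx'

end Pool.Agent.SGD.H5
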